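import Mathlib

set_option autoImplicit false

/-!
Arithmetic part: the possible out-degrees.
-/

namespace Pool.Agent.MP436edf

/-- Small side: `2 o ≤ n - 1`. -/
theorem arith_low (n o : ℕ) (c m : ℝ) (hn : 3 ≤ n) (ho : 2 * o + 1 ≤ n) (hm : 0 ≤ m)
    (h : 4 * n * (o : ℝ) ^ 2 + 2 * n * o + 2 * n * m - 4 * n * o * c + (n - 1) * c ^ 2 ≤ n - 1) :
    (o = 0 ∧ |c| ≤ 1) ∨
    (2 * o + 2 = n ∧ (n : ℝ) - 1 - 2 / (n - 1) ≤ c ∧ c ≤ n - 1) ∨
    (2 * o + 1 = n ∧ |c - n| ≤ 1 ∧ m < 1) := by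
  obtain ⟨u, hu⟩ := Nat.exists_eq_add_of_le ho
  have hnr : (n : ℝ) = 2 * o + 1 + u := by exact_mod_cast hu
  have hn3 : (3 : ℝ) ≤ n := by exact_mod_cast hn
  have ho0 : (0 : ℝ) ≤ o := Nat.cast_nonneg o
  have hu0 : (0 : ℝ) ≤ u := Nat.cast_nonneg u
  have hsq : (((n : ℝ) - 1) * c - 2 * n * o) ^ 2 ≤ ((n : ℝ) - 1) ^ 2 - 2 * n * o * u -
      2 * n * m * (n - 1) := by
    have h1 : (n : ℝ) - 1 = 2 * o + u := by linarith
    have h2 := mul_le_mul_of_nonneg_left h (show (0 : ℝ) ≤ n - 1 by linarith)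
    have h3 : (((n : ℝ) - 1) * c - 2 * n * o) ^ 2 = (n - 1) *
        (4 * n * (o : ℝ) ^ 2 + 2 * n * o + 2 * n * m - 4 * n * o * c + (n - 1) * c ^ 2) +
        4 * n ^ 2 * o ^ 2 - (n - 1) * (4 * n * (o : ℝ) ^ 2 + 2 * n * o + 2 * n * m) := by ring
    have h4 : 4 * (n : ℝ) ^ 2 * o ^ 2 - (n - 1) * (4 * n * (o : ℝ) ^ 2 + 2 * n * o + 2 * n * m) =
        - 2 * n * o * u - 2 * n * m * (n - 1) := by
      rw [hnr]; ring
    have h5 : ((n : ℝ) - 1) * (n - 1) = (n - 1) ^ 2 := by ring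
    linarith
  have hnm : 0 ≤ 2 * (n : ℝ) * m * (n - 1) := by
    apply mul_nonneg (by positivity)
    linarith
  rcases Nat.eq_zero_or_pos o with rfl | hopos
  · left
    refine ⟨rfl, ?_⟩
    simp only [Nat.cast_zero, mul_zero, sub_zero, zero_mul] at hsq
    have h6 : (((n : ℝ) - 1) * c) ^ 2 ≤ ((n : ℝ) - 1) ^ 2 := by linarith
    rw [mul_pow] at h6
    have h7 : (0 : ℝ) < ((n : ℝ) - 1) ^ 2 := by
      apply pow_pos; linarith
    have h8 : c ^ 2 ≤ 1 := by
      by_contra hc
      push Not at hc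
      nlinarith
    rwa [sq_le_one_iff_abs_le_one] at h8
  · rcases Nat.lt_or_ge u 2 with hu2 | hu2
    · interval_cases u
      · right; right
        have hn2 : (n : ℝ) - 1 = 2 * o := by rw [hnr]; push_cast; ring
        have hpos : (0 : ℝ) < (n : ℝ) - 1 := by linarith
        have h9 : (n : ℝ) - 1 ≠ 0 := hpos.ne'
        have h10 : (((n : ℝ) - 1) * c - 2 * n * o) = (n - 1) * (c - n) := by
          linear_combination (-(n : ℝ)) * (-hn2)
        rw [h10] at hsq
        simp only [Nat.cast_zero, mul_zero, sub_zero] at hsq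
        have h11 : (((n : ℝ) - 1) * (c - n)) ^ 2 ≤ (n - 1) ^ 2 := by linarith
        rw [mul_pow] at h11
        have h7 : (0 : ℝ) < ((n : ℝ) - 1) ^ 2 := pow_pos hpos 2
        have h8 : (c - n) ^ 2 ≤ 1 := by
          by_contra hc
          push Not at hc
          nlinarith
        refine ⟨by omega, by rwa [sq_le_one_iff_abs_le_one] at h8, ?_⟩
        by_contra hm1
        push Not at hm1
        have h12 : 2 * (n : ℝ) * (n - 1) ≤ 2 * n * m * (n - 1) := by
          have : 2 * (n : ℝ) * (n - 1) * 1 ≤ 2 * n * (n - 1) * m :=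
            mul_le_mul_of_nonneg_left hm1 (by positivity)
          linarith
        have h13 : 0 ≤ (((n : ℝ) - 1) * (c - n)) ^ 2 := sq_nonneg _
        nlinarith
      · right; left
        have hn2 : 2 * (o : ℝ) = n - 2 := by rw [hnr]; push_cast; ring
        have hpos : (0 : ℝ) < (n : ℝ) - 1 := by linarith
        have h10 : (((n : ℝ) - 1) * c - 2 * n * o) = (n - 1) * c - n * (n - 2) := by
          linear_combination (-(n : ℝ)) * hn2
        have h11 : (((n : ℝ) - 1) * c - n * (n - 2)) ^ 2 ≤ 1 := by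
          rw [← h10]
          have : 2 * (n : ℝ) * o * (1 : ℕ) = n * (n - 2) := by
            push_cast
            linear_combination (n : ℝ) * hn2
          rw [this] at hsq
          nlinarith
        rw [sq_le_one_iff_abs_le_one, abs_le] at h11
        refine ⟨by omega, ?_, ?_⟩
        · have : (n : ℝ) - 1 - 2 / (n - 1) = (n * (n - 2) - 1) / (n - 1) := by
            field_simp; ring
          rw [this, div_le_iff₀ hpos]
          linarith
        · have : (n - 1) * c ≤ ((n : ℝ) - 1) * (n - 1) := by nlinarith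
          exact le_of_mul_le_mul_left this hpos
    · exfalso
      have ho1 : (1 : ℝ) ≤ o := by exact_mod_cast hopos
      have hu1 : (2 : ℝ) ≤ u := by exact_mod_cast hu2
      have h14 : 0 ≤ (((n : ℝ) - 1) * c - 2 * n * o) ^ 2 := sq_nonneg _
      have h15 : 0 ≤ ((o : ℝ) - 1) * (u - 2) := mul_nonneg (by linarith) (by linarith)
      have h16 : 2 * (n : ℝ) * (n - 3) ≤ 2 * n * o * u := by
        have : (n : ℝ) - 3 ≤ o * u := by nlinarith
        have := mul_le_mul_of_nonneg_left this (show (0 : ℝ) ≤ 2 * n by linarith)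
        linarith
      have h17 : (5 : ℝ) ≤ n := by linarith
      nlinarith

end Pool.Agent.MP436edf
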