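import Mathlib

set_option autoImplicit false

/-!
Digraphs on `Fin n` (loops excluded by hypothesis), balancedness, Laplacian, Laplacian spread.
-/

namespace Pool.Agent.MP436edf

open Classical

/-- Out-degree: the number of arcs leaving `i`. -/
noncomputable def outDeg {n : ℕ} (G : Digraph (Fin n)) (i : Fin n) : ℕ :=
  (Finset.univ.filter (fun j => G.Adj i j)).card

/-- In-degree: the number of arcs entering `i`. -/
noncomputable def inDeg {n : ℕ} (G : Digraph (Fin n)) (i : Fin n) : ℕ :=
  (Finset.univ.filter (fun j => G.Adj j i)).card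

/-- No loops. -/
def Loopless {n : ℕ} (G : Digraph (Fin n)) : Prop := ∀ i, ¬ G.Adj i i

/-- Every vertex has in-degree equal to out-degree. -/
def Balanced {n : ℕ} (G : Digraph (Fin n)) : Prop := ∀ i, inDeg G i = outDeg G i

/-- Every vertex has in-degree and out-degree `k`. -/
def Regular {n : ℕ} (G : Digraph (Fin n)) (k : ℕ) : Prop := ∀ i, inDeg G i = k ∧ outDeg G i = k

/-- The loopless complement. -/
def complement {n : ℕ} (G : Digraph (Fin n)) : Digraph (Fin n) where
  Adj i j := i ≠ j ∧ ¬ G.Adj i j

/-- The adjacency matrix. -/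
noncomputable def adj {n : ℕ} (G : Digraph (Fin n)) : Matrix (Fin n) (Fin n) ℝ :=
  Matrix.of fun i j => if G.Adj i j then 1 else 0

/-- The Laplacian `D - A`, `D` the diagonal matrix of out-degrees. -/
noncomputable def lap {n : ℕ} (G : Digraph (Fin n)) : Matrix (Fin n) (Fin n) ℝ :=
  Matrix.diagonal (fun i => (outDeg G i : ℝ)) - adj G

/-- The values of the Laplacian form on unit vectors orthogonal to the all-ones vector. -/
def values {n : ℕ} (G : Digraph (Fin n)) : Set ℝ :=
  {t | ∃ x : Fin n → ℝ, ∑ i, x i = 0 ∧ ∑ i, x i ^ 2 = 1 ∧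
    t = dotProduct x (Matrix.mulVec (lap G) x)}

/-- The least value. -/
noncomputable def alpha {n : ℕ} (G : Digraph (Fin n)) : ℝ := sInf (values G)

/-- The greatest value. -/
noncomputable def beta {n : ℕ} (G : Digraph (Fin n)) : ℝ := sSup (values G)

/-- The Laplacian spread. -/
noncomputable def spread {n : ℕ} (G : Digraph (Fin n)) : ℝ := beta G - alpha G

end Pool.Agent.MP436edf
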