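import Pool.Agent.MP436edf.Oper

set_option autoImplicit false

/-!
Classification of the degrees and the end of the proof.
-/

namespace Pool.Agent.MP436edf

open Matrix Finset

variable {n : ℕ}

theorem outDeg_compl (G : Digraph (Fin n)) (hl : Loopless G) (i : Fin n) :
    outDeg (complement G) i + outDeg G i + 1 = n := by
  classical
  unfold outDeg complement
  simp only
  have h1 : (Finset.univ.filter (fun j => i ≠ j ∧ ¬ G.Adj i j)) =
      (Finset.univ.filter (fun j => ¬ G.Adj i j)).erase i := by
    ext j
    simp [eq_comm]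
  have h2 : i ∈ (Finset.univ.filter (fun j => ¬ G.Adj i j)) := by
    simp [hl i]
  have h3 := Finset.card_erase_add_one h2
  have h4 := Finset.card_filter_add_card_filter_not (s := (Finset.univ : Finset (Fin n)))
    (fun j => G.Adj i j)
  rw [Finset.card_univ, Fintype.card_fin] at h4
  have h5 : (Finset.univ.filter (fun j => i ≠ j ∧ ¬ G.Adj i j)).card + 1 =
      (Finset.univ.filter (fun j => ¬ G.Adj i j)).card := by rw [h1]; exact h3
  convert (show (Finset.univ.filter (fun j => i ≠ j ∧ ¬ G.Adj i j)).card +
    (Finset.univ.filter (fun j => G.Adj i j)).card + 1 = n by omega) using 4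

theorem inDeg_compl (G : Digraph (Fin n)) (hl : Loopless G) (i : Fin n) :
    inDeg (complement G) i + inDeg G i + 1 = n := by
  classical
  unfold inDeg complement
  simp only
  have h1 : (Finset.univ.filter (fun j => j ≠ i ∧ ¬ G.Adj j i)) =
      (Finset.univ.filter (fun j => ¬ G.Adj j i)).erase i := by
    ext j
    simp
  have h2 : i ∈ (Finset.univ.filter (fun j => ¬ G.Adj j i)) := by
    simp [hl i]
  have h3 := Finset.card_erase_add_one h2
  have h4 := Finset.card_filter_add_card_filter_not (s := (Finset.univ : Finset (Fin n)))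
    (fun j => G.Adj j i)
  rw [Finset.card_univ, Fintype.card_fin] at h4
  have h5 : (Finset.univ.filter (fun j => j ≠ i ∧ ¬ G.Adj j i)).card + 1 =
      (Finset.univ.filter (fun j => ¬ G.Adj j i)).card := by rw [h1]; exact h3
  convert (show (Finset.univ.filter (fun j => j ≠ i ∧ ¬ G.Adj j i)).card +
    (Finset.univ.filter (fun j => G.Adj j i)).card + 1 = n by omega) using 4

theorem spread_zero_of_const (G : Digraph (Fin n)) (hb : Balanced G) (t : ℝ)
    (h : ∀ i j, i ≠ j → adj G i j + adj G j i = t) : spread G = 0 := by
  apply spread_const G (t * n / 2)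
  intro x h0 h1
  have h2 := form_sq G hb x
  have h3 : ∑ i, ∑ j, adj G i j * (x i - x j) ^ 2 = ∑ i, ∑ j, adj G j i * (x i - x j) ^ 2 := by
    rw [Finset.sum_comm]
    apply Finset.sum_congr rfl
    intro i _
    apply Finset.sum_congr rfl
    intro j _
    ring
  have h4 : ∑ i, ∑ j, adj G i j * (x i - x j) ^ 2 + ∑ i, ∑ j, adj G j i * (x i - x j) ^ 2 =
      ∑ i, ∑ j, t * (x i - x j) ^ 2 := by
    rw [← Finset.sum_add_distrib]
    apply Finset.sum_congr rfl
    intro i _
    rw [← Finset.sum_add_distrib]
    apply Finset.sum_congr rfl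
    intro j _
    by_cases hij : i = j
    · subst hij; ring
    · rw [← h i j hij]; ring
  have h5 : ∑ i, ∑ j, t * (x i - x j) ^ 2 = t * (2 * n) := by
    have h6 : ∀ i, ∑ j, t * (x i - x j) ^ 2 = t * (n * x i ^ 2 + 1) := by
      intro i
      have h7 : ∀ j, t * (x i - x j) ^ 2 = t * x i ^ 2 - (2 * t * x i) * x j + t * x j ^ 2 := by
        intro j; ring
      simp only [h7]
      rw [Finset.sum_add_distrib, Finset.sum_sub_distrib,
        ← Finset.mul_sum Finset.univ (fun j => x j) (2 * t * x i), h0,
        ← Finset.mul_sum Finset.univ (fun j => x j ^ 2) t, h1]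
      simp only [Finset.sum_const, Finset.card_univ, Fintype.card_fin, nsmul_eq_mul]
      ring
    simp only [h6]
    rw [← Finset.mul_sum, Finset.sum_add_distrib, ← Finset.mul_sum, h1]
    simp only [Finset.sum_const, Finset.card_univ, Fintype.card_fin, nsmul_eq_mul]
    ring
  linarith

theorem classify (hn : 3 ≤ n) (G : Digraph (Fin n)) (hl : Loopless G) (hb : Balanced G)
    (hs : spread G = 1) (i : Fin n) :
    (outDeg G i = 0 ∧ -1 ≤ alpha G + beta G ∧ alpha G + beta G ≤ 1) ∨
    (2 * outDeg G i + 2 = n ∧ 4 ≤ n ∧ (n : ℝ) - 2 < alpha G + beta G ∧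
      alpha G + beta G ≤ n - 1) ∨
    (2 * outDeg G i + 1 = n ∧ (n : ℝ) - 1 ≤ alpha G + beta G ∧ alpha G + beta G ≤ n + 1 ∧
      dbl G i < 1) ∨
    (2 * outDeg G i = n ∧ 4 ≤ n ∧ (n : ℝ) + 1 ≤ alpha G + beta G ∧
      alpha G + beta G < n + 2) ∨
    (outDeg G i + 1 = n ∧ 2 * (n : ℝ) - 1 ≤ alpha G + beta G ∧ alpha G + beta G ≤ 2 * n + 1) := by
  have hk := key_ineq G (by omega) hl hb hs i
  have hc := outDeg_compl G hl i
  set c := alpha G + beta G with hcdef
  have hfrac : 4 ≤ n → 2 / ((n : ℝ) - 1) < 1 := by
    intro h4
    have h5 : (4 : ℝ) ≤ n := by exact_mod_cast h4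
    rw [div_lt_one (by linarith)]
    linarith
  rcases Nat.lt_or_ge n (2 * outDeg G i + 1) with h | h
  · have hcr : ((outDeg (complement G) i : ℕ) : ℝ) = n - 1 - outDeg G i := by
      have : ((outDeg (complement G) i : ℕ) : ℝ) + outDeg G i + 1 = n := by exact_mod_cast hc
      linarith
    have := arith_low n (outDeg (complement G) i) (2 * n - c)
      ((n : ℝ) - 1 - 2 * outDeg G i + dbl G i) hn (by omega) (dbl_compl_nonneg G hl hb i) (by
        rw [hcr]
        linarith)
    rcases this with ⟨h1, h2⟩ | ⟨h1, h2, h3⟩ | ⟨h1, h2, h3⟩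
    · right; right; right; right
      rw [abs_le] at h2
      exact ⟨by omega, by linarith [h2.2], by linarith [h2.1]⟩
    · right; right; right; left
      have h4 : 4 ≤ n := by omega
      have := hfrac h4
      exact ⟨by omega, h4, by linarith, by linarith⟩
    · exfalso; omega
  · have := arith_low n (outDeg G i) c (dbl G i) hn h (dbl_nonneg G i) hk
    rcases this with ⟨h1, h2⟩ | ⟨h1, h2, h3⟩ | ⟨h1, h2, h3⟩
    · left
      rw [abs_le] at h2
      exact ⟨h1, h2.1, h2.2⟩
    · right; left
      have h4 : 4 ≤ n := by omega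
      have := hfrac h4
      exact ⟨h1, h4, by linarith, h3⟩
    · right; right; left
      rw [abs_le] at h2
      exact ⟨h1, by linarith [h2.1], by linarith [h2.2], h3⟩

theorem main (hn : 3 ≤ n) (G : Digraph (Fin n)) (hl : Loopless G) (hb : Balanced G)
    (hs : spread G = 1) : (∀ i, 2 * outDeg G i + 2 = n) ∨ (∀ i, 2 * outDeg G i = n) := by
  have hn3 : (3 : ℝ) ≤ n := by exact_mod_cast hn
  have hcl := classify hn G hl hb hs
  rcases hcl ⟨0, by omega⟩ with h | h | h | h | h
  · exfalso
    obtain ⟨h1, h2, h3⟩ := h
    have hall : ∀ i, outDeg G i = 0 := by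
      intro i
      rcases hcl i with h | h | h | h | h
      · exact h.1
      · exfalso; linarith [h.2.2.1]
      · exfalso; linarith [h.2.1]
      · exfalso; linarith [h.2.2.1]
      · exfalso; linarith [h.2.1]
    have hz : ∀ i j, adj G i j = 0 := by
      intro i j
      have h4 := adj_sum_right G i
      rw [hall i, Nat.cast_zero] at h4
      exact (Finset.sum_eq_zero_iff_of_nonneg (fun j _ => adj_nonneg G i j)).1 h4 j
        (Finset.mem_univ j)
    have := spread_zero_of_const G hb 0 (fun i j _ => by rw [hz, hz, add_zero])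
    rw [this] at hs
    norm_num at hs
  · left
    obtain ⟨h1, h2, h3, h4⟩ := h
    intro i
    rcases hcl i with h | h | h | h | h
    · exfalso; linarith [h.2.2]
    · exact h.1
    · exfalso; omega
    · exfalso; linarith [h.2.2.1]
    · exfalso; linarith [h.2.1]
  · exfalso
    obtain ⟨h1, h2, h3, h4⟩ := h
    have hall : ∀ i, 2 * outDeg G i + 1 = n ∧ dbl G i < 1 := by
      intro i
      rcases hcl i with h | h | h | h | h
      · exfalso; linarith [h.2.2]
      · exfalso; omega
      · exact ⟨h.1, h.2.2.2⟩
      · exfalso; omega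
      · exfalso; linarith [h.2.1]
    have hprod : ∀ i j, adj G i j * adj G j i = 0 := by
      intro i j
      by_contra hne
      have h5 : adj G i j * adj G j i = 1 := by
        rcases eq_or_ne (adj G i j) 0 with h6 | h6
        · rw [h6, zero_mul] at hne; exact absurd rfl hne
        · rcases eq_or_ne (adj G j i) 0 with h7 | h7
          · rw [h7, mul_zero] at hne; exact absurd rfl hne
          · have e1 := adj_sq G i j
            have e2 := adj_sq G j i
            rw [sq] at e1 e2
            have e3 : adj G i j = 1 := by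
              have := mul_left_cancel₀ h6 (e1.trans (mul_one _).symm)
              exact this
            have e4 : adj G j i = 1 := by
              have := mul_left_cancel₀ h7 (e2.trans (mul_one _).symm)
              exact this
            rw [e3, e4, mul_one]
      have h6 : adj G i j * adj G j i ≤ dbl G i :=
        Finset.single_le_sum (f := fun j => adj G i j * adj G j i)
          (fun j _ => mul_nonneg (adj_nonneg G i j) (adj_nonneg G j i)) (Finset.mem_univ j)
      linarith [(hall i).2]
    have hdz : ∀ i, dbl G i = 0 := by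
      intro i
      unfold dbl
      exact Finset.sum_eq_zero (fun j _ => hprod i j)
    have := spread_zero_of_const G hb 1 (by
      intro i j hij
      have h5 := dbl_compl G hl hb i
      have h6 : (2 : ℝ) * outDeg G i + 1 = n := by exact_mod_cast (hall i).1
      rw [hdz i, show (n : ℝ) - 1 - 2 * outDeg G i + 0 = 0 by linarith] at h5
      have h7 := (Finset.sum_eq_zero_iff_of_nonneg (fun j _ => mul_nonneg
        (show (0 : ℝ) ≤ 1 - adj G i j by linarith [adj_le_one G i j])
        (show (0 : ℝ) ≤ 1 - adj G j i by linarith [adj_le_one G j i]))).1 h5.symm j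
        (Finset.mem_erase.2 ⟨fun h => hij h.symm, Finset.mem_univ j⟩)
      have h8 := hprod i j
      linarith)
    rw [this] at hs
    norm_num at hs
  · right
    obtain ⟨h1, h2, h3, h4⟩ := h
    intro i
    rcases hcl i with h | h | h | h | h
    · exfalso; linarith [h.2.2]
    · exfalso; linarith [h.2.2.2]
    · exfalso; omega
    · exact h.1
    · exfalso; linarith [h.2.1]
  · exfalso
    obtain ⟨h1, h2, h3⟩ := h
    have hall : ∀ i, outDeg G i + 1 = n := by
      intro i
      rcases hcl i with h | h | h | h | h
      · exfalso; linarith [h.2.2]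
      · exfalso; linarith [h.2.2.2]
      · exfalso; linarith [h.2.2.1]
      · exfalso; linarith [h.2.2.2]
      · exact h.1
    have hone : ∀ i j, i ≠ j → adj G i j = 1 := by
      intro i j hij
      have h4 := adj_sum_right G i
      have hii : adj G i i = 0 := by
        unfold adj
        simp [hl i]
      have h5 : ∑ j ∈ Finset.univ.erase i, (1 - adj G i j) = 0 := by
        rw [Finset.sum_sub_distrib, Finset.sum_const, Finset.card_erase_of_mem (Finset.mem_univ i),
          Finset.card_univ, Fintype.card_fin]
        rw [← Finset.add_sum_erase _ _ (Finset.mem_univ i), hii, zero_add] at h4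
        rw [h4, nsmul_eq_mul, mul_one, show n - 1 = outDeg G i by have := hall i; omega, sub_self]
      have h6 := (Finset.sum_eq_zero_iff_of_nonneg (fun j _ =>
        (show (0 : ℝ) ≤ 1 - adj G i j by linarith [adj_le_one G i j]))).1 h5 j
        (Finset.mem_erase.2 ⟨fun h => hij h.symm, Finset.mem_univ j⟩)
      linarith
    have := spread_zero_of_const G hb 2 (fun i j hij => by
      rw [hone i j hij, hone j i (fun h => hij h.symm)]; norm_num)
    rw [this] at hs
    norm_num at hs

end Pool.Agent.MP436edf
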