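import Pool.Agent.MP436edf.Defs
import Pool.Agent.MP436edf.Arith

set_option autoImplicit false

/-!
The Laplacian form.
-/

namespace Pool.Agent.MP436edf

open Matrix Finset

variable {n : ℕ}

theorem adj_nonneg (G : Digraph (Fin n)) (i j : Fin n) : 0 ≤ adj G i j := by
  unfold adj
  simp only [Matrix.of_apply]
  split_ifs <;> norm_num

theorem adj_sum_right (G : Digraph (Fin n)) (i : Fin n) : ∑ j, adj G i j = outDeg G i := by
  unfold adj outDeg
  simp

theorem adj_sum_left (G : Digraph (Fin n)) (hb : Balanced G) (j : Fin n) :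
    ∑ i, adj G i j = outDeg G j := by
  rw [← hb j]
  unfold adj inDeg
  simp

theorem form_eq (G : Digraph (Fin n)) (x : Fin n → ℝ) : x ⬝ᵥ (lap G *ᵥ x) =
    ∑ i, (outDeg G i : ℝ) * x i ^ 2 - ∑ i, ∑ j, adj G i j * x i * x j := by
  unfold lap
  rw [Matrix.sub_mulVec, dotProduct_sub]
  congr 1
  · simp only [dotProduct, Matrix.mulVec_diagonal]
    apply Finset.sum_congr rfl
    intro i _
    ring
  · simp only [dotProduct, Matrix.mulVec, Finset.mul_sum]
    apply Finset.sum_congr rfl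
    intro i _
    apply Finset.sum_congr rfl
    intro j _
    ring

theorem form_sq (G : Digraph (Fin n)) (hb : Balanced G) (x : Fin n → ℝ) :
    2 * (x ⬝ᵥ (lap G *ᵥ x)) = ∑ i, ∑ j, adj G i j * (x i - x j) ^ 2 := by
  rw [form_eq]
  have h1 : ∑ i, ∑ j, adj G i j * x i ^ 2 = ∑ i, (outDeg G i : ℝ) * x i ^ 2 := by
    apply Finset.sum_congr rfl
    intro i _
    rw [← Finset.sum_mul, adj_sum_right]
  have h2 : ∑ i, ∑ j, adj G i j * x j ^ 2 = ∑ i, (outDeg G i : ℝ) * x i ^ 2 := by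
    rw [Finset.sum_comm]
    apply Finset.sum_congr rfl
    intro i _
    rw [← Finset.sum_mul, adj_sum_left G hb]
  have h3 : ∑ i, ∑ j, adj G i j * (x i - x j) ^ 2 = ∑ i, ∑ j, adj G i j * x i ^ 2 +
      ∑ i, ∑ j, adj G i j * x j ^ 2 - 2 * ∑ i, ∑ j, adj G i j * x i * x j := by
    rw [Finset.mul_sum, ← Finset.sum_add_distrib, ← Finset.sum_sub_distrib]
    apply Finset.sum_congr rfl
    intro i _
    rw [Finset.mul_sum, ← Finset.sum_add_distrib, ← Finset.sum_sub_distrib]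
    apply Finset.sum_congr rfl
    intro j _
    ring
  rw [h3, h1, h2]
  ring

theorem form_shift (G : Digraph (Fin n)) (hb : Balanced G) (x : Fin n → ℝ) (a : ℝ) :
    (fun i => x i - a) ⬝ᵥ (lap G *ᵥ (fun i => x i - a)) = x ⬝ᵥ (lap G *ᵥ x) := by
  have h1 := form_sq G hb x
  have h2 := form_sq G hb (fun i => x i - a)
  have h3 : ∑ i, ∑ j, adj G i j * ((x i - a) - (x j - a)) ^ 2 =
      ∑ i, ∑ j, adj G i j * (x i - x j) ^ 2 := by
    apply Finset.sum_congr rfl
    intro i _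
    apply Finset.sum_congr rfl
    intro j _
    ring
  rw [h3] at h2
  linarith

theorem form_smul (G : Digraph (Fin n)) (x : Fin n → ℝ) (r : ℝ) :
    (r • x) ⬝ᵥ (lap G *ᵥ (r • x)) = r ^ 2 * (x ⬝ᵥ (lap G *ᵥ x)) := by
  rw [Matrix.mulVec_smul, dotProduct_smul, smul_dotProduct, smul_eq_mul, smul_eq_mul]
  ring

/-- The values are bounded. -/
theorem abs_form_le (G : Digraph (Fin n)) (x : Fin n → ℝ) (hx : ∑ i, x i ^ 2 = 1) :
    |x ⬝ᵥ (lap G *ᵥ x)| ≤ ∑ i, ∑ j, |lap G i j| := by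
  have hle : ∀ i, |x i| ≤ 1 := by
    intro i
    have : x i ^ 2 ≤ ∑ i, x i ^ 2 :=
      Finset.single_le_sum (f := fun i => x i ^ 2) (fun j _ => sq_nonneg (x j)) (Finset.mem_univ i)
    rw [hx] at this
    exact (sq_le_one_iff_abs_le_one _).1 this
  simp only [dotProduct, Matrix.mulVec, Finset.mul_sum]
  refine (Finset.abs_sum_le_sum_abs _ _).trans (Finset.sum_le_sum fun i _ => ?_)
  refine (Finset.abs_sum_le_sum_abs _ _).trans (Finset.sum_le_sum fun j _ => ?_)
  rw [abs_mul, abs_mul]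
  have h1 := hle i
  have h2 := hle j
  have h3 : |lap G i j| * |x j| ≤ |lap G i j| * 1 :=
    mul_le_mul_of_nonneg_left h2 (abs_nonneg _)
  have h4 : |x i| * (|lap G i j| * |x j|) ≤ 1 * (|lap G i j| * |x j|) :=
    mul_le_mul_of_nonneg_right h1 (mul_nonneg (abs_nonneg _) (abs_nonneg _))
  linarith

theorem form_bounds (G : Digraph (Fin n)) (x : Fin n → ℝ) (h0 : ∑ i, x i = 0)
    (hx : ∑ i, x i ^ 2 = 1) : alpha G ≤ x ⬝ᵥ (lap G *ᵥ x) ∧ x ⬝ᵥ (lap G *ᵥ x) ≤ beta G := by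
  constructor
  · apply csInf_le
    · refine ⟨-∑ i, ∑ j, |lap G i j|, ?_⟩
      rintro t ⟨y, -, hy, rfl⟩
      exact (abs_le.1 (abs_form_le G y hy)).1
    · exact ⟨x, h0, hx, rfl⟩
  · apply le_csSup
    · refine ⟨∑ i, ∑ j, |lap G i j|, ?_⟩
      rintro t ⟨y, -, hy, rfl⟩
      exact (abs_le.1 (abs_form_le G y hy)).2
    · exact ⟨x, h0, hx, rfl⟩

theorem form_bounds' (G : Digraph (Fin n)) (x : Fin n → ℝ) (h0 : ∑ i, x i = 0) :
    alpha G * ∑ i, x i ^ 2 ≤ x ⬝ᵥ (lap G *ᵥ x) ∧ x ⬝ᵥ (lap G *ᵥ x) ≤ beta G * ∑ i, x i ^ 2 := by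
  rcases eq_or_lt_of_le (Finset.sum_nonneg (fun i _ => sq_nonneg (x i)) : 0 ≤ ∑ i, x i ^ 2)
    with h | h
  · have hx : x = 0 := by
      funext i
      have := (Finset.sum_eq_zero_iff_of_nonneg (fun i _ => sq_nonneg (x i))).1 h.symm i
        (Finset.mem_univ i)
      simpa using this
    subst hx
    simp
  · set r := Real.sqrt (∑ i, x i ^ 2) with hr
    have hrpos : 0 < r := Real.sqrt_pos.2 h
    have hr2 : r ^ 2 = ∑ i, x i ^ 2 := Real.sq_sqrt h.le
    have hb := form_bounds G (r⁻¹ • x) (by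
      simp only [Pi.smul_apply, smul_eq_mul, ← Finset.mul_sum, h0, mul_zero]) (by
      simp only [Pi.smul_apply, smul_eq_mul, mul_pow, ← Finset.mul_sum]
      rw [← hr2]
      field_simp)
    rw [form_smul] at hb
    rw [← hr2]
    have e : r ^ 2 * (r⁻¹ ^ 2 * (x ⬝ᵥ (lap G *ᵥ x))) = x ⬝ᵥ (lap G *ᵥ x) := by
      field_simp
    have hr2pos : 0 < r ^ 2 := pow_pos hrpos 2
    constructor
    · have := mul_le_mul_of_nonneg_left hb.1 hr2pos.le
      rw [e] at this
      linarith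
    · have := mul_le_mul_of_nonneg_left hb.2 hr2pos.le
      rw [e] at this
      linarith

/-- If the form is constant on unit vectors then the spread vanishes. -/
theorem spread_const (G : Digraph (Fin n)) (t0 : ℝ) (h : ∀ x : Fin n → ℝ, ∑ i, x i = 0 →
    ∑ i, x i ^ 2 = 1 → x ⬝ᵥ (lap G *ᵥ x) = t0) : spread G = 0 := by
  unfold spread beta alpha
  rcases (values G).eq_empty_or_nonempty with he | he
  · rw [he]; simp
  · have : values G = {t0} := by
      apply Set.eq_singleton_iff_nonempty_unique_mem.2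
      refine ⟨he, ?_⟩
      rintro t ⟨y, h0, hy, rfl⟩
      exact h y h0 hy
    rw [this]
    simp

end Pool.Agent.MP436edf
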