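import Pool.Agent.MP436edf.Form

set_option autoImplicit false

/-!
The symmetric matrix attached to the Laplacian and the row estimate.
-/

namespace Pool.Agent.MP436edf

open Matrix Finset

variable {n : ℕ}

theorem row_est (T : Matrix (Fin n) (Fin n) ℝ) (hT : Tᵀ = T) (p : (Fin n → ℝ) → ℝ)
    (hp : ∀ x y, p (x + y) + p (x - y) = 2 * p x + 2 * p y)
    (hp1 : ∀ x, p x ≤ x ⬝ᵥ x)
    (h : ∀ x, |x ⬝ᵥ (T *ᵥ x)| ≤ p x) (y : Fin n → ℝ) : (T *ᵥ y) ⬝ᵥ (T *ᵥ y) ≤ p y := by
  set z := T *ᵥ y with hz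
  have hsym : ∀ u v : Fin n → ℝ, u ⬝ᵥ (T *ᵥ v) = v ⬝ᵥ (T *ᵥ u) := by
    intro u v
    rw [Matrix.dotProduct_mulVec, ← Matrix.mulVec_transpose, hT, dotProduct_comm]
  have h1 := (abs_le.1 (h (z + y))).2
  have h2 := (abs_le.1 (h (z - y))).1
  have h3 : (z + y) ⬝ᵥ (T *ᵥ (z + y)) = z ⬝ᵥ (T *ᵥ z) + 2 * (z ⬝ᵥ z) + y ⬝ᵥ (T *ᵥ y) := by
    rw [Matrix.mulVec_add, dotProduct_add, add_dotProduct, add_dotProduct, hsym y z, ← hz]
    ring
  have h4 : (z - y) ⬝ᵥ (T *ᵥ (z - y)) = z ⬝ᵥ (T *ᵥ z) - 2 * (z ⬝ᵥ z) + y ⬝ᵥ (T *ᵥ y) := by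
    rw [Matrix.mulVec_sub, dotProduct_sub, sub_dotProduct, sub_dotProduct, hsym y z, ← hz]
    ring
  have h5 := hp z y
  have h6 := hp1 z
  rw [h3] at h1
  rw [h4] at h2
  linarith

/-- The operator `L + Lᵀ - c P`, with `P` the projection orthogonal to the all-ones vector. -/
noncomputable def oper (G : Digraph (Fin n)) (c : ℝ) : Matrix (Fin n) (Fin n) ℝ :=
  lap G + (lap G)ᵀ - c • (1 - (n : ℝ)⁻¹ • Matrix.of (fun _ _ => (1 : ℝ)))

theorem oper_symm (G : Digraph (Fin n)) (c : ℝ) : (oper G c)ᵀ = oper G c := by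
  ext i j
  simp only [oper, Matrix.transpose_apply, Matrix.sub_apply, Matrix.add_apply, Matrix.smul_apply,
    Matrix.of_apply, smul_eq_mul, Matrix.one_apply, eq_comm]
  ring

/-- The quadratic form of the projection. -/
noncomputable def pform (x : Fin n → ℝ) : ℝ := ∑ i, x i ^ 2 - (n : ℝ)⁻¹ * (∑ i, x i) ^ 2

theorem oper_form (G : Digraph (Fin n)) (c : ℝ) (x : Fin n → ℝ) :
    x ⬝ᵥ (oper G c *ᵥ x) = 2 * (x ⬝ᵥ (lap G *ᵥ x)) - c * pform x := by
  unfold oper pform
  rw [Matrix.sub_mulVec, Matrix.add_mulVec, dotProduct_sub, dotProduct_add, Matrix.smul_mulVec,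
    Matrix.sub_mulVec, Matrix.one_mulVec, Matrix.smul_mulVec, dotProduct_smul, dotProduct_sub,
    dotProduct_smul]
  have h1 : x ⬝ᵥ ((lap G)ᵀ *ᵥ x) = x ⬝ᵥ (lap G *ᵥ x) := by
    rw [Matrix.mulVec_transpose, dotProduct_comm, ← Matrix.dotProduct_mulVec]
  have h2 : x ⬝ᵥ x = ∑ i, x i ^ 2 := by
    simp only [dotProduct]
    apply Finset.sum_congr rfl
    intro i _
    ring
  have h3 : x ⬝ᵥ ((Matrix.of (fun _ _ => (1 : ℝ)) : Matrix (Fin n) (Fin n) ℝ) *ᵥ x) =
      (∑ i, x i) ^ 2 := by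
    simp only [dotProduct, Matrix.mulVec, Matrix.of_apply, one_mul]
    rw [← Finset.sum_mul, sq]
  rw [h1, h2, h3, smul_eq_mul, smul_eq_mul]
  ring

theorem oper_bound (G : Digraph (Fin n)) (hn : 0 < n) (hb : Balanced G) (hs : spread G = 1)
    (x : Fin n → ℝ) : |x ⬝ᵥ (oper G (alpha G + beta G) *ᵥ x)| ≤ pform x := by
  have hn' : (n : ℝ) ≠ 0 := by positivity
  have h0 : ∑ i, (x i - (n : ℝ)⁻¹ * ∑ i, x i) = 0 := by
    rw [Finset.sum_sub_distrib]
    simp only [Finset.sum_const, Finset.card_univ, Fintype.card_fin, nsmul_eq_mul]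
    field_simp
    ring
  have h1 : ∑ i, (x i - (n : ℝ)⁻¹ * ∑ i, x i) ^ 2 = pform x := by
    unfold pform
    have : ∀ i, (x i - (n : ℝ)⁻¹ * ∑ i, x i) ^ 2 = x i ^ 2 - x i * (2 * (n : ℝ)⁻¹ * ∑ i, x i) +
        ((n : ℝ)⁻¹ * ∑ i, x i) ^ 2 := by intro i; ring
    simp only [this]
    rw [Finset.sum_add_distrib, Finset.sum_sub_distrib, ← Finset.sum_mul]
    simp only [Finset.sum_const, Finset.card_univ, Fintype.card_fin, nsmul_eq_mul]
    field_simp
    ring
  have h2 := form_bounds' G _ h0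
  rw [form_shift G hb, h1] at h2
  have hs' : beta G - alpha G = 1 := hs
  rw [oper_form, abs_le]
  constructor
  · nlinarith [h2.1, h2.2]
  · nlinarith [h2.1, h2.2]

theorem oper_row (G : Digraph (Fin n)) (hn : 0 < n) (hb : Balanced G) (hs : spread G = 1)
    (i : Fin n) : ∑ j, (oper G (alpha G + beta G) j i) ^ 2 ≤ 1 - (n : ℝ)⁻¹ := by
  have hinv : (0 : ℝ) ≤ (n : ℝ)⁻¹ := by positivity
  have h := row_est (oper G (alpha G + beta G)) (oper_symm _ _) pform (by
    intro x y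
    unfold pform
    simp only [Pi.add_apply, Pi.sub_apply, Finset.sum_add_distrib, Finset.sum_sub_distrib, add_sq,
      sub_sq]
    ring) (by
    intro x
    unfold pform
    have h2 : x ⬝ᵥ x = ∑ i, x i ^ 2 := by
      simp only [dotProduct]
      apply Finset.sum_congr rfl
      intro i _
      ring
    rw [h2]
    have := mul_nonneg hinv (sq_nonneg (∑ i, x i))
    linarith) (oper_bound G hn hb hs) (Pi.single i 1)
  have h3 : pform (Pi.single i (1 : ℝ)) = 1 - (n : ℝ)⁻¹ := by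
    unfold pform
    simp only [Finset.sum_pi_single', Finset.mem_univ, if_true, one_pow, mul_one]
    congr 1
    rw [Finset.sum_eq_single i]
    · simp
    · intro j _ hj
      simp [Pi.single_eq_of_ne hj]
    · intro h; exact absurd (Finset.mem_univ i) h
  rw [h3] at h
  refine le_trans (le_of_eq ?_) h
  simp only [dotProduct, Matrix.mulVec_single_one, Matrix.col_apply]
  apply Finset.sum_congr rfl
  intro j _
  ring

/-- The number of double arcs at `i`. -/
noncomputable def dbl (G : Digraph (Fin n)) (i : Fin n) : ℝ := ∑ j, adj G i j * adj G j i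

theorem adj_sq (G : Digraph (Fin n)) (i j : Fin n) : adj G i j ^ 2 = adj G i j := by
  unfold adj
  simp only [Matrix.of_apply]
  split_ifs <;> norm_num

theorem row_formula (G : Digraph (Fin n)) (hn : 0 < n) (hl : Loopless G) (hb : Balanced G) (c : ℝ)
    (i : Fin n) : ∑ j, (oper G c j i) ^ 2 = 4 * (outDeg G i : ℝ) ^ 2 + 2 * outDeg G i +
      2 * dbl G i - 4 * outDeg G i * c + c ^ 2 - (n : ℝ)⁻¹ * c ^ 2 := by
  have hn' : (n : ℝ) ≠ 0 := by positivity
  have hii : adj G i i = 0 := by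
    unfold adj
    simp [hl i]
  have hentry : ∀ j, oper G c j i ^ 2 = (adj G i j + adj G j i - (n : ℝ)⁻¹ * c) ^ 2 +
      (if j = i then (2 * (outDeg G i : ℝ) - c) ^ 2 + 2 * (2 * (outDeg G i : ℝ) - c) *
        ((n : ℝ)⁻¹ * c) else 0) := by
    intro j
    by_cases hj : j = i
    · subst hj
      simp only [oper, lap, Matrix.sub_apply, Matrix.add_apply, Matrix.transpose_apply,
        Matrix.smul_apply, Matrix.of_apply, Matrix.one_apply, Matrix.diagonal_apply, if_true,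
        smul_eq_mul, hii]
      ring
    · have hj' : ¬ i = j := fun h => hj h.symm
      simp only [oper, lap, Matrix.sub_apply, Matrix.add_apply, Matrix.transpose_apply,
        Matrix.smul_apply, Matrix.of_apply, Matrix.one_apply, Matrix.diagonal_apply, if_neg hj,
        if_neg hj', smul_eq_mul]
      ring
  simp only [hentry]
  rw [Finset.sum_add_distrib]
  have h1 : ∑ j, (if j = i then (2 * (outDeg G i : ℝ) - c) ^ 2 + 2 * (2 * (outDeg G i : ℝ) - c) *
        ((n : ℝ)⁻¹ * c) else 0) = (2 * (outDeg G i : ℝ) - c) ^ 2 +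
        2 * (2 * (outDeg G i : ℝ) - c) * ((n : ℝ)⁻¹ * c) := by
    rw [Finset.sum_ite_eq' Finset.univ i]
    simp
  have h2 : ∑ j, (adj G i j + adj G j i - (n : ℝ)⁻¹ * c) ^ 2 = 2 * (outDeg G i : ℝ) + 2 * dbl G i -
      2 * ((n : ℝ)⁻¹ * c) * (2 * outDeg G i) + n * ((n : ℝ)⁻¹ * c) ^ 2 := by
    have h3 : ∀ j, (adj G i j + adj G j i - (n : ℝ)⁻¹ * c) ^ 2 = adj G i j + adj G j i +
        2 * (adj G i j * adj G j i) - 2 * ((n : ℝ)⁻¹ * c) * (adj G i j + adj G j i) +
        ((n : ℝ)⁻¹ * c) ^ 2 := by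
      intro j
      have e1 := adj_sq G i j
      have e2 := adj_sq G j i
      linear_combination e1 + e2
    simp only [h3]
    rw [Finset.sum_add_distrib, Finset.sum_sub_distrib, Finset.sum_add_distrib, ← Finset.mul_sum,
      ← Finset.mul_sum, Finset.sum_add_distrib, adj_sum_right, adj_sum_left G hb]
    unfold dbl
    simp only [Finset.sum_const, Finset.card_univ, Fintype.card_fin, nsmul_eq_mul]
    ring
  rw [h1, h2]
  field_simp
  ring

theorem dbl_nonneg (G : Digraph (Fin n)) (i : Fin n) : 0 ≤ dbl G i :=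
  Finset.sum_nonneg fun j _ => mul_nonneg (adj_nonneg G i j) (adj_nonneg G j i)

theorem adj_le_one (G : Digraph (Fin n)) (i j : Fin n) : adj G i j ≤ 1 := by
  unfold adj
  simp only [Matrix.of_apply]
  split_ifs <;> norm_num

theorem dbl_compl (G : Digraph (Fin n)) (hl : Loopless G) (hb : Balanced G) (i : Fin n) :
    (n : ℝ) - 1 - 2 * outDeg G i + dbl G i =
      ∑ j ∈ Finset.univ.erase i, (1 - adj G i j) * (1 - adj G j i) := by
  have hii : adj G i i = 0 := by
    unfold adj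
    simp [hl i]
  have h1 : ∑ j, (1 - adj G i j) * (1 - adj G j i) = n - 2 * outDeg G i + dbl G i := by
    have h3 : ∀ j, (1 - adj G i j) * (1 - adj G j i) = 1 - (adj G i j + adj G j i) +
        adj G i j * adj G j i := by intro j; ring
    simp only [h3]
    rw [Finset.sum_add_distrib, Finset.sum_sub_distrib, Finset.sum_add_distrib, adj_sum_right,
      adj_sum_left G hb]
    unfold dbl
    simp only [Finset.sum_const, Finset.card_univ, Fintype.card_fin, nsmul_eq_mul]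
    ring
  rw [← Finset.add_sum_erase _ _ (Finset.mem_univ i), hii] at h1
  linarith

theorem dbl_compl_nonneg (G : Digraph (Fin n)) (hl : Loopless G) (hb : Balanced G) (i : Fin n) :
    0 ≤ (n : ℝ) - 1 - 2 * outDeg G i + dbl G i := by
  rw [dbl_compl G hl hb]
  exact Finset.sum_nonneg fun j _ => mul_nonneg (by linarith [adj_le_one G i j])
    (by linarith [adj_le_one G j i])

/-- The key inequality. -/
theorem key_ineq (G : Digraph (Fin n)) (hn : 0 < n) (hl : Loopless G) (hb : Balanced G)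
    (hs : spread G = 1) (i : Fin n) :
    4 * n * (outDeg G i : ℝ) ^ 2 + 2 * n * outDeg G i + 2 * n * dbl G i -
      4 * n * outDeg G i * (alpha G + beta G) + (n - 1) * (alpha G + beta G) ^ 2 ≤ n - 1 := by
  have h1 := oper_row G hn hb hs i
  rw [row_formula G hn hl hb] at h1
  have hn' : (0 : ℝ) < n := by exact_mod_cast hn
  have h2 := mul_le_mul_of_nonneg_left h1 hn'.le
  have h3 : (n : ℝ) * (n : ℝ)⁻¹ = 1 := mul_inv_cancel₀ hn'.ne'
  have h4 : (n : ℝ) * (1 - (n : ℝ)⁻¹) = n - 1 := by rw [mul_sub, h3, mul_one]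
  rw [h4] at h2
  refine le_trans (le_of_eq ?_) h2
  linear_combination (-(alpha G + beta G) ^ 2) * (-h3)

end Pool.Agent.MP436edf
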